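import Pool.Agent.Lib.MP_acafa7_al.F.IfaceC
import Pool.Agent.Lib.MP_acafa7_al.F.H31.Qcb
import Pool.Agent.Lib.MP_acafa7_al.MS.H64.Wk

/-! BNA: if the bottleneck property fails, there is a polygon without triple points. -/

namespace MSG.F49

open Classical

theorem bna_st : BNAStatement := by
  intro V G hG B _ _ C c k N₀ hk hJ
  by_cases hB : BNP G (Fc G B c) k N₀ (C3 C)
  · exact Or.inl hB
  right
  unfold BNP at hB
  push Not at hB
  obtain ⟨n, l, P, Q, hn, hl, hPF, hP, hmin, hQF, hQ, h0, h1, i, hi, hno⟩ := hB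
  set D : ℕ := 8 * (3 * C + 2) * k with hD
  -- the closed polygon
  let q : ℕ → V := fun t => if t ≤ n then P t else Q (n + l - t)
  have q1 : ∀ t, t ≤ n → q t = P t := fun t ht => if_pos ht
  have q2 : ∀ t, n ≤ t → q t = Q (n + l - t) := by
    intro t ht
    by_cases h : t ≤ n
    · have : t = n := by omega
      subst this
      show (if t ≤ t then P t else Q (t + l - t)) = _
      rw [if_pos le_rfl, Nat.add_sub_cancel_left, h1]
    · exact if_neg h
  have qF : ∀ t, t ≤ n + l → q t ∈ Fc G B c := by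
    intro t ht
    rcases le_total t n with h | h
    · rw [q1 t h]; exact hPF t h
    · rw [q2 t h]; exact hQF _ (by omega)
  have qd : ∀ t, t < n + l → G.dist (q t) (q (t + 1)) ≤ k := by
    intro t ht
    rcases lt_or_ge t n with h | h
    · rw [q1 t h.le, q1 (t + 1) h]; exact hP t h
    · rw [q2 t h, q2 (t + 1) (by omega), SimpleGraph.dist_comm]
      have e : n + l - t = (n + l - (t + 1)) + 1 := by omega
      rw [e]
      exact hQ _ (by omega)
  choose w hw using fun t => hG.exists_walk_length_eq_dist (q t) (q (t + 1))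
  refine ⟨n + l, q, fun t => (w t).support, i, n, by omega, ?_⟩
  refine ⟨hi, Nat.le_add_right _ _, ?_, qF, ?_, ?_⟩
  · rw [q2 (n + l) (Nat.le_add_right _ _), Nat.sub_self, q1 0 (Nat.zero_le _), h0]
  · intro t ht
    refine ⟨H64.isW_support _, ?_⟩
    rw [SimpleGraph.Walk.length_support, hw]
    exact Nat.succ_le_succ (qd t ht)
  · intro x a b e ha hib hbn hne hel hxa hxb hxe
    have hel' : e ≤ n + l := hel
    rw [q1 a (ha.trans hi)] at hxa
    rw [q1 b hbn] at hxb
    rw [q2 e hne] at hxe
    set j := n + l - e with hj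
    have hjl : j ≤ l := by omega
    have tri : ∀ u v, G.dist x u ≤ D → G.dist x v ≤ D → G.dist u v ≤ 16 * (3 * C + 2) * k := by
      intro u v hu hv
      have h3 : G.dist u v ≤ G.dist u x + G.dist x v := hG.dist_triangle
      have h5 : G.dist u x = G.dist x u := SimpleGraph.dist_comm
      have h4 : 16 * (3 * C + 2) * k = D + D := by rw [hD]; ring
      rw [h4]
      omega
    have hab := hJ (P a) (P b) (hPF a (ha.trans hi)) (hPF b hbn) (tri _ _ hxa hxb)
    have haj := hJ (P a) (Q j) (hPF a (ha.trans hi)) (hQF j hjl) (tri _ _ hxa hxe)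
    set N := C6 C (16 * (3 * C + 2)) with hN
    have j1 : Jmp G (Fc G B c) k a (P 0) (P a) := F31.path_left P n hPF hP a (ha.trans hi)
    have j2 : Jmp G (Fc G B c) k (n - b) (P b) (P n) := F31.path_right P n hPF hP b hbn
    have j3 := hmin _ (F31.jmp_trans (F31.jmp_trans j1 hab) j2)
    have j4 : Jmp G (Fc G B c) k (i - a) (P a) (P i) := by
      have h5 := F31.path_right P i (fun t ht => hPF t (ht.trans hi))
        (fun t ht => hP t (lt_of_lt_of_le ht hi)) a ha
      exact h5
    have j5 : Jmp G (Fc G B c) k (i - a + N) (P i) (Q j) :=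
      F31.jmp_trans (F31.jmp_symm j4) haj
    refine hno j hjl (F31.jmp_mono j5 ?_)
    show i - a + N ≤ C3 C
    have h6 : C3 C = 2 * N := rfl
    rw [h6]
    omega

end MSG.F49
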